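import Mathlib

set_option autoImplicit false

namespace Pool.Agent.Results.MP_1ed635_nt.TwoMinimalReps

open MvPolynomial

/-- The summand `l (a x + b y) ^ d`, as a binary form. -/
noncomputable def summand (d : ℕ) (l a b : ℂ) : MvPolynomial (Fin 2) ℂ :=
  C l * (C a * X 0 + C b * X 1) ^ d

/-- `M` is (the multiset of summands of) a `K`-representation of the form `f` of degree `d`; the
length of the representation is the cardinality of `M`. -/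
def IsRep (K : Subfield ℂ) (d : ℕ) (f : MvPolynomial (Fin 2) ℂ)
    (M : Multiset (MvPolynomial (Fin 2) ℂ)) : Prop :=
  (∀ g ∈ M, ∃ l ∈ K, ∃ a ∈ K, ∃ b ∈ K, g = summand d l a b) ∧ M.sum = f

/-- `M` is a `K`-minimal representation: no `K`-representation is shorter. -/
def IsMinimalRep (K : Subfield ℂ) (d : ℕ) (f : MvPolynomial (Fin 2) ℂ)
    (M : Multiset (MvPolynomial (Fin 2) ℂ)) : Prop :=
  IsRep K d f M ∧ ∀ M' : Multiset (MvPolynomial (Fin 2) ℂ), IsRep K d f M' → M.card ≤ M'.card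

/-! ### Number theory: `u² + 5 y²` and `u² + 32 y²` are both squares only trivially -/


lemma mod5 {s w k : ℤ} (h : (5 : ℤ) ∣ s ^ 2 - k * w ^ 2) (hk : k % 5 = 2 ∨ k % 5 = 3) :
    (5 : ℤ) ∣ s ∧ (5 : ℤ) ∣ w := by
  obtain ⟨q, r, hq, hr1, hr2⟩ : ∃ q r : ℤ, s = 5 * q + r ∧ 0 ≤ r ∧ r < 5 :=
    ⟨s / 5, s % 5, by omega, by omega, by omega⟩
  obtain ⟨q', r', hq', hr1', hr2'⟩ : ∃ q r : ℤ, w = 5 * q + r ∧ 0 ≤ r ∧ r < 5 :=
    ⟨w / 5, w % 5, by omega, by omega, by omega⟩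
  obtain ⟨q'', r'', hq'', hr''⟩ : ∃ q r : ℤ, k = 5 * q + r ∧ (r = 2 ∨ r = 3) :=
    ⟨k / 5, k % 5, by omega, by omega⟩
  subst hq hq' hq''
  obtain ⟨t, ht⟩ := h
  have h2 : (5 : ℤ) ∣ r ^ 2 - r'' * r' ^ 2 := by
    refine ⟨t - (5 * q ^ 2 + 2 * q * r) + q'' * (5 * q' + r') ^ 2 + r'' * (5 * q' ^ 2 + 2 * q' * r'), ?_⟩
    linear_combination ht
  interval_cases r <;> interval_cases r' <;> rcases hr'' with rfl | rfl <;> omega

lemma mod3 {s w : ℤ} (h : (3 : ℤ) ∣ s ^ 2 + w ^ 2) : (3 : ℤ) ∣ s ∧ (3 : ℤ) ∣ w := by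
  obtain ⟨q, r, hq, hr1, hr2⟩ : ∃ q r : ℤ, s = 3 * q + r ∧ 0 ≤ r ∧ r < 3 :=
    ⟨s / 3, s % 3, by omega, by omega, by omega⟩
  obtain ⟨q', r', hq', hr1', hr2'⟩ : ∃ q r : ℤ, w = 3 * q + r ∧ 0 ≤ r ∧ r < 3 :=
    ⟨w / 3, w % 3, by omega, by omega, by omega⟩
  subst hq hq'
  obtain ⟨t, ht⟩ := h
  have h2 : (3 : ℤ) ∣ r ^ 2 + r' ^ 2 := by
    refine ⟨t - (3 * q ^ 2 + 2 * q * r) - (3 * q' ^ 2 + 2 * q' * r'), ?_⟩
    linear_combination ht
  interval_cases r <;> interval_cases r' <;> omega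

lemma not_cop {p a b : ℤ} (hp : 1 < p) (ha : p ∣ a) (hb : p ∣ b) (h : IsCoprime a b) : False := by
  have := h.isUnit_of_dvd' ha hb
  rw [Int.isUnit_iff] at this
  omega

/-- no solution mod 5 with `s² - k w² = 5 m t²`, `5 ∤ m`. -/
lemma no5 {s w k t m : ℤ} (h : s ^ 2 - k * w ^ 2 = 5 * m * t ^ 2) (hk : k % 5 = 2 ∨ k % 5 = 3)
    (hm : m % 5 ≠ 0) (hc : IsCoprime s t) : False := by
  have h0 : (5 : ℤ) ∣ s ^ 2 - k * w ^ 2 := ⟨m * t ^ 2, by linear_combination h⟩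
  obtain ⟨⟨s', hs'⟩, ⟨w', hw'⟩⟩ := mod5 h0 hk
  have h3 : (5 : ℤ) ∣ m * t ^ 2 := by
    refine ⟨s' ^ 2 - k * w' ^ 2, ?_⟩
    have : 5 * (m * t ^ 2) = 5 * (5 * (s' ^ 2 - k * w' ^ 2)) := by
      rw [hs', hw'] at h
      linear_combination - h
    linarith
  have hp : Prime (5 : ℤ) := by rw [Int.prime_iff_natAbs_prime]; norm_num
  rcases hp.dvd_or_dvd h3 with h4 | h4
  · omega
  · exact not_cop (by norm_num) ⟨s', hs'⟩ (hp.dvd_of_dvd_pow h4) hc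

lemma dvd27 {g s t : ℤ} (hg : 0 < g) (h1 : g ∣ 27 * s ^ 2) (h2 : g ∣ 27 * t ^ 2)
    (hc : IsCoprime s t) : g = 1 ∨ g = 3 ∨ g = 9 ∨ g = 27 := by
  obtain ⟨a, b, hab⟩ := (hc.pow (m := 2) (n := 2))
  have h3 : g ∣ 27 := by
    have : (27 : ℤ) = a * (27 * s ^ 2) + b * (27 * t ^ 2) := by linear_combination (-27) * hab
    rw [this]
    exact dvd_add (h1.mul_left a) (h2.mul_left b)
  have h4 : g ≤ 27 := Int.le_of_dvd (by norm_num) h3
  interval_cases g <;> omega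

lemma plus {R S T W : ℤ} (hRW : IsCoprime R W) (hST : IsCoprime S T) (hW : W ≠ 0) (hT : T ≠ 0)
    (h : R ^ 2 * (S ^ 2 + 5 * T ^ 2) = W ^ 2 * (S ^ 2 + 32 * T ^ 2)) :
    ∃ x v : ℤ, x ^ 2 = S ^ 2 + 5 * T ^ 2 ∧ v ^ 2 = S ^ 2 + 32 * T ^ 2 := by
  have h1 : W ^ 2 ∣ S ^ 2 + 5 * T ^ 2 := by
    have : W ^ 2 ∣ R ^ 2 * (S ^ 2 + 5 * T ^ 2) := ⟨_, h⟩
    exact (hRW.symm.pow (m := 2) (n := 2)).dvd_of_dvd_mul_left this
  obtain ⟨g, hg⟩ := h1
  have hW2 : W ^ 2 ≠ 0 := pow_ne_zero 2 hW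
  have hg2 : S ^ 2 + 32 * T ^ 2 = R ^ 2 * g := by
    apply mul_left_cancel₀ hW2
    rw [← h, hg]; ring
  have hgpos : 0 < g := by
    have h5 : 0 < S ^ 2 + 5 * T ^ 2 := by positivity
    rw [hg] at h5
    exact (mul_pos_iff_of_pos_left (by positivity)).1 h5
  have hd1 : g ∣ 27 * S ^ 2 := ⟨32 * W ^ 2 - 5 * R ^ 2, by linear_combination 32 * hg - 5 * hg2⟩
  have hd2 : g ∣ 27 * T ^ 2 := ⟨R ^ 2 - W ^ 2, by linear_combination hg2 - hg⟩
  rcases dvd27 hgpos hd1 hd2 hST with rfl | rfl | rfl | rfl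
  · exact ⟨W, R, by linear_combination -hg, by linear_combination -hg2⟩
  · exact (no5 (s := S) (w := W) (k := 3) (t := T) (m := -1) (by linear_combination hg)
      (by norm_num) (by norm_num) hST).elim
  · exact ⟨3 * W, 3 * R, by linear_combination -hg, by linear_combination -hg2⟩
  · exact (no5 (s := S) (w := W) (k := 27) (t := T) (m := -1) (by linear_combination hg)
      (by norm_num) (by norm_num) hST).elim

lemma minus {R S T W : ℤ} (hRW : IsCoprime R W) (hST : IsCoprime S T) (hW : W ≠ 0) (hT : T ≠ 0)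
    (h : R ^ 2 * (S ^ 2 - 5 * T ^ 2) = W ^ 2 * (32 * T ^ 2 - S ^ 2)) : False := by
  have h1 : W ^ 2 ∣ S ^ 2 - 5 * T ^ 2 := by
    have : W ^ 2 ∣ R ^ 2 * (S ^ 2 - 5 * T ^ 2) := ⟨_, h⟩
    exact (hRW.symm.pow (m := 2) (n := 2)).dvd_of_dvd_mul_left this
  obtain ⟨g, hg⟩ := h1
  have hW2 : W ^ 2 ≠ 0 := pow_ne_zero 2 hW
  have hg2 : 32 * T ^ 2 - S ^ 2 = R ^ 2 * g := by
    apply mul_left_cancel₀ hW2
    rw [← h, hg]; ring
  have hs : 27 * T ^ 2 = g * (W ^ 2 + R ^ 2) := by linear_combination hg + hg2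
  have hgpos : 0 < g := by
    have h5 : 0 < g * (W ^ 2 + R ^ 2) := by rw [← hs]; positivity
    exact (mul_pos_iff_of_pos_right (by positivity)).1 h5
  have hd1 : g ∣ 27 * S ^ 2 := ⟨32 * W ^ 2 + 5 * R ^ 2, by linear_combination 32 * hg + 5 * hg2⟩
  have hd2 : g ∣ 27 * T ^ 2 := ⟨_, hs⟩
  have key : (3 : ℤ) ∣ W ^ 2 + R ^ 2 → False := fun hd => by
    obtain ⟨h3, h4⟩ := mod3 hd
    exact not_cop (by norm_num) h4 h3 hRW
  rcases dvd27 hgpos hd1 hd2 hST with rfl | rfl | rfl | rfl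
  · exact key ⟨9 * T ^ 2, by linear_combination - hs⟩
  · exact key ⟨3 * T ^ 2, by linarith⟩
  · exact key ⟨T ^ 2, by linarith⟩
  · exact (no5 (s := S) (w := W) (k := 27) (t := T) (m := 1) (by linear_combination hg)
      (by norm_num) (by norm_num) hST).elim

/-- the common descent step -/
lemma step {k l a b C D : ℤ} (hkl : k ^ 2 * l = 32) (hab : IsCoprime (k * a) b) (ha : a ≠ 0)
    (hb : b ≠ 0) (hCD : IsCoprime C D) (hC : 0 < C) (hD : 0 < D) (h1 : C * D = 5 * (a * b) ^ 2)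
    (h2 : D - C = k ^ 2 * a ^ 2 - l * b ^ 2) :
    ∃ r s t w x v : ℤ, a = r * s ∧ b = t * w ∧ IsCoprime (k * r) w ∧ IsCoprime (k * s) t ∧
      x ^ 2 = (k * s) ^ 2 + 5 * t ^ 2 ∧ v ^ 2 = (k * s) ^ 2 + 32 * t ^ 2 ∧
      (k * r) ^ 2 * ((k * s) ^ 2 + 5 * t ^ 2) = w ^ 2 * ((k * s) ^ 2 + 32 * t ^ 2) := by
  have hk : k ≠ 0 := by rintro rfl; norm_num at hkl
  have hp : Prime (5 : ℤ) := by rw [Int.prime_iff_natAbs_prime]; norm_num
  -- four numbers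
  have four : ∀ c d : ℤ, c * d = a * b → IsCoprime c d → ∃ r s t w : ℤ, a = r * s ∧ b = t * w ∧
      c = r * t ∧ d = s * w ∧ IsCoprime (k * r) w ∧ IsCoprime (k * s) t := by
    intro c d hcd hc
    have hdvd : a ∣ c * d := ⟨b, hcd⟩
    obtain ⟨r, s, ⟨t, rfl⟩, ⟨w, rfl⟩, rfl⟩ := exists_dvd_and_dvd_of_dvd_mul hdvd
    have hb' : b = t * w := by
      apply mul_left_cancel₀ ha
      rw [← hcd]; ring
    subst hb'
    refine ⟨r, s, t, w, rfl, rfl, rfl, rfl, ?_, ?_⟩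
    · have h3 : IsCoprime (k * r * s) (t * w) := by rw [mul_assoc]; exact hab
      exact h3.of_mul_left_left.of_mul_right_right
    · have h3 : IsCoprime (k * s * r) (t * w) := by
        have : k * s * r = k * (r * s) := by ring
        rw [this]; exact hab
      exact h3.of_mul_left_left.of_mul_right_left
  -- it is enough to treat `C = 5 c²`, `D = d²` up to a sign
  have main : ∀ c d e : ℤ, c * d = a * b → IsCoprime c d → (e = 1 ∨ e = -1) →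
      e * (d ^ 2 - 5 * c ^ 2) = k ^ 2 * a ^ 2 - l * b ^ 2 →
      ∃ r s t w x v : ℤ, a = r * s ∧ b = t * w ∧ IsCoprime (k * r) w ∧ IsCoprime (k * s) t ∧
      x ^ 2 = (k * s) ^ 2 + 5 * t ^ 2 ∧ v ^ 2 = (k * s) ^ 2 + 32 * t ^ 2 ∧
      (k * r) ^ 2 * ((k * s) ^ 2 + 5 * t ^ 2) = w ^ 2 * ((k * s) ^ 2 + 32 * t ^ 2) := by
    intro c d e hcd hc he h3
    obtain ⟨r, s, t, w, rfl, rfl, rfl, rfl, h4, h5⟩ := four c d hcd hc
    have hw : w ≠ 0 := right_ne_zero_of_mul hb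
    have ht : t ≠ 0 := left_ne_zero_of_mul hb
    rcases he with rfl | rfl
    · have h6 : (k * r) ^ 2 * ((k * s) ^ 2 + 5 * t ^ 2) = w ^ 2 * ((k * s) ^ 2 + 32 * t ^ 2) := by
        rw [← hkl]
        linear_combination (-k ^ 2) * h3
      obtain ⟨x, v, hx, hv⟩ := plus h4 h5 hw ht h6
      exact ⟨r, s, t, w, x, v, rfl, rfl, h4, h5, hx, hv, h6⟩
    · exfalso
      refine minus h4 h5 hw ht ?_
      rw [← hkl]
      linear_combination (-k ^ 2) * h3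
  -- split off the prime 5
  have h5 : (5 : ℤ) ∣ C * D := ⟨_, h1⟩
  have sqs : ∀ P Q : ℤ, 0 < P → 0 < Q → IsCoprime P Q → P * Q = (a * b) ^ 2 →
      ∃ c d : ℤ, P = c ^ 2 ∧ Q = d ^ 2 ∧ c * d = a * b ∧ IsCoprime c d := by
    intro P Q hP hQ hPQ h
    obtain ⟨c, hc⟩ := Int.sq_of_isCoprime hPQ h
    obtain ⟨d, hd⟩ := Int.sq_of_isCoprime hPQ.symm (by rw [mul_comm]; exact h)
    have hc' : P = c ^ 2 := by
      rcases hc with hc | hc
      · exact hc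
      · nlinarith [sq_nonneg c]
    have hd' : Q = d ^ 2 := by
      rcases hd with hd | hd
      · exact hd
      · nlinarith [sq_nonneg d]
    subst hc' hd'
    have hcop : IsCoprime c d := (IsCoprime.pow_iff (by norm_num) (by norm_num)).1 hPQ
    have h7 : (c * d) ^ 2 = (a * b) ^ 2 := by rw [← h]; ring
    rcases sq_eq_sq_iff_eq_or_eq_neg.1 h7 with h8 | h8
    · exact ⟨c, d, rfl, rfl, h8, hcop⟩
    · exact ⟨-c, d, by ring, rfl, by linarith, hcop.neg_left⟩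
  rcases hp.dvd_or_dvd h5 with ⟨C', rfl⟩ | ⟨D', rfl⟩
  · have h6 : C' * D = (a * b) ^ 2 := by linarith
    have hC' : 0 < C' := by linarith
    obtain ⟨c, d, rfl, rfl, h7, h8⟩ := sqs C' D hC' hD hCD.of_mul_left_right h6
    exact main c d 1 h7 h8 (Or.inl rfl) (by linear_combination h2)
  · have h6 : C * D' = (a * b) ^ 2 := by linarith
    have hD' : 0 < D' := by linarith
    obtain ⟨c, d, rfl, rfl, h7, h8⟩ := sqs C D' hC hD' hCD.of_mul_right_right h6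
    exact main d c (-1) (by rw [mul_comm]; exact h7) h8.symm (Or.inr rfl) (by linear_combination h2)

lemma prime_two : Prime (2 : ℤ) := Int.prime_two

lemma cop5 {C D m : ℤ} (h : C * D = 5 * m ^ 2) (hc : IsCoprime (D - C) m) : IsCoprime C D := by
  have hp5 : Prime (5 : ℤ) := by rw [Int.prime_iff_natAbs_prime]; norm_num
  refine isCoprime_of_prime_dvd ?_ ?_
  · rintro ⟨rfl, rfl⟩
    have hm : m = 0 := by
      have : m ^ 2 = 0 := by linarith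
      exact pow_eq_zero_iff (by norm_num) |>.1 this
    rw [hm, sub_zero] at hc
    exact not_isCoprime_zero_zero hc
  · intro p hp h1 h2
    have h3 : p ∣ D - C := dvd_sub h2 h1
    have h4 : ¬ p ∣ m := fun h5 => hp.not_isUnit (hc.isUnit_of_dvd' h3 h5)
    have h5 : p ∣ 5 * m ^ 2 := by rw [← h]; exact h1.mul_right D
    rcases hp.dvd_or_dvd h5 with h6 | h6
    · have h7 : Associated p 5 := hp.associated_of_dvd hp5 h6
      have h8 : (5 : ℤ) ∣ p := h7.symm.dvd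
      have h9 : (5 : ℤ) * 5 ∣ 5 * m ^ 2 := by
        rw [← h]; exact mul_dvd_mul (h8.trans h1) (h8.trans h2)
      have h10 : (5 : ℤ) ∣ m ^ 2 := by omega
      exact h4 (h6.trans (hp5.dvd_of_dvd_pow h10))
    · exact h4 (hp.dvd_of_dvd_pow h6)

lemma cop2 {A B m : ℤ} (n : ℕ) (h : A * B = 2 ^ n * m ^ 2) (hc : IsCoprime (B - A) m)
    (ho : ¬ (2 : ℤ) ∣ B - A) : IsCoprime A B := by
  refine isCoprime_of_prime_dvd ?_ ?_
  · rintro ⟨rfl, rfl⟩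
    exact ho ⟨0, by ring⟩
  · intro p hp h1 h2
    have h3 : p ∣ B - A := dvd_sub h2 h1
    have h4 : ¬ p ∣ m := fun h5 => hp.not_isUnit (hc.isUnit_of_dvd' h3 h5)
    have h5 : p ∣ 2 ^ n * m ^ 2 := by rw [← h]; exact h1.mul_right B
    rcases hp.dvd_or_dvd h5 with h6 | h6
    · have h7 : Associated p 2 := hp.associated_of_dvd prime_two (hp.dvd_of_dvd_pow h6)
      exact ho (h7.symm.dvd.trans h3)
    · exact h4 (hp.dvd_of_dvd_pow h6)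

/-- splitting `A B = 2^n y²` into squares, one of the factors being even -/
lemma split2 {A B y N : ℤ} (hN : 0 < N) (h : A * B = N * y ^ 2) (hc : IsCoprime A B) (hA : 0 < A)
    (hB : 0 < B) (hNd : N ∣ A ∨ N ∣ B) :
    ∃ a b : ℤ, (B - A) ^ 2 = (a ^ 2 - N * b ^ 2) ^ 2 ∧ y ^ 2 = (a * b) ^ 2 ∧ IsCoprime a b ∧
      (A + B = a ^ 2 + N * b ^ 2) := by
  have key : ∀ P Q : ℤ, 0 < P → 0 < Q → IsCoprime P Q → P * Q = y ^ 2 →
      ∃ c d : ℤ, P = c ^ 2 ∧ Q = d ^ 2 ∧ IsCoprime c d := by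
    intro P Q hP hQ hPQ h
    obtain ⟨c, hc⟩ := Int.sq_of_isCoprime hPQ h
    obtain ⟨d, hd⟩ := Int.sq_of_isCoprime hPQ.symm (by rw [mul_comm]; exact h)
    have hc' : P = c ^ 2 := by
      rcases hc with hc | hc
      · exact hc
      · nlinarith [sq_nonneg c]
    have hd' : Q = d ^ 2 := by
      rcases hd with hd | hd
      · exact hd
      · nlinarith [sq_nonneg d]
    subst hc' hd'
    exact ⟨c, d, rfl, rfl, (IsCoprime.pow_iff (by norm_num) (by norm_num)).1 hPQ⟩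
  rcases hNd with ⟨A', rfl⟩ | ⟨B', rfl⟩
  · have h1 : A' * B = y ^ 2 := by
      apply mul_left_cancel₀ hN.ne'
      rw [← h]; ring
    have hA' : 0 < A' := (mul_pos_iff_of_pos_left hN).1 hA
    obtain ⟨c, d, rfl, rfl, h2⟩ := key A' B hA' hB hc.of_mul_left_right h1
    exact ⟨d, c, by ring, by rw [← h1]; ring, h2.symm, by ring⟩
  · have h1 : A * B' = y ^ 2 := by
      apply mul_left_cancel₀ hN.ne'
      rw [← h]; ring
    have hB' : 0 < B' := (mul_pos_iff_of_pos_left hN).1 hB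
    obtain ⟨c, d, rfl, rfl, h2⟩ := key A B' hA hB' hc.of_mul_right_right h1
    exact ⟨c, d, by ring, by rw [← h1]; ring, h2, by ring⟩

lemma sq_mod8 (x : ℤ) : x ^ 2 % 8 = 0 ∨ x ^ 2 % 8 = 1 ∨ x ^ 2 % 8 = 4 := by
  obtain ⟨q, r, hq, hr1, hr2⟩ : ∃ q r : ℤ, x = 8 * q + r ∧ 0 ≤ r ∧ r < 8 :=
    ⟨x / 8, x % 8, by omega, by omega, by omega⟩
  have : x ^ 2 = 8 * (8 * q ^ 2 + 2 * q * r) + r ^ 2 := by rw [hq]; ring
  rw [this]
  interval_cases r <;> omega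

lemma sq_mod8_odd {x : ℤ} (h : ¬ (2 : ℤ) ∣ x) : x ^ 2 % 8 = 1 := by
  obtain ⟨q, r, hq, hr1, hr2⟩ : ∃ q r : ℤ, x = 8 * q + r ∧ 0 ≤ r ∧ r < 8 :=
    ⟨x / 8, x % 8, by omega, by omega, by omega⟩
  have : x ^ 2 = 8 * (8 * q ^ 2 + 2 * q * r) + r ^ 2 := by rw [hq]; ring
  rw [this]
  interval_cases r <;> omega

lemma abs_one_of {r s : ℤ} (h : r ^ 2 = s ^ 2) (hc : IsCoprime r s) : r ^ 2 = 1 ∧ s ^ 2 = 1 := by
  have h1 : IsCoprime (r ^ 2) (s ^ 2) := hc.pow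
  rw [← h] at h1
  have h2 : IsUnit (r ^ 2) := isCoprime_self.1 h1
  rw [Int.isUnit_iff] at h2
  have h3 : r ^ 2 = 1 := by
    rcases h2 with h2 | h2
    · exact h2
    · nlinarith [sq_nonneg r]
  exact ⟨h3, by rw [← h]; exact h3⟩

lemma descent : ∀ (n : ℕ) (u y x v : ℤ), y.natAbs = n → y ≠ 0 → IsCoprime u y →
    x ^ 2 = u ^ 2 + 5 * y ^ 2 → v ^ 2 = u ^ 2 + 32 * y ^ 2 → u ^ 2 = 4 * y ^ 2 := by
  intro n
  induction n using Nat.strong_induction_on with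
  | _ n ih =>
  intro u y x' v' hn hy hcop hx' hv'
  obtain ⟨x, hx0, hx⟩ : ∃ x : ℤ, 0 ≤ x ∧ x ^ 2 = u ^ 2 + 5 * y ^ 2 :=
    ⟨|x'|, abs_nonneg _, by rw [sq_abs]; exact hx'⟩
  obtain ⟨v, hv0, hv⟩ : ∃ x : ℤ, 0 ≤ x ∧ x ^ 2 = u ^ 2 + 32 * y ^ 2 :=
    ⟨|v'|, abs_nonneg _, by rw [sq_abs]; exact hv'⟩
  have hy2 : 0 < y ^ 2 := by positivity
  have hxu := abs_lt_of_sq_lt_sq' (by linarith : u ^ 2 < x ^ 2) hx0
  have hvu := abs_lt_of_sq_lt_sq' (by linarith : u ^ 2 < v ^ 2) hv0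
  by_cases hu : (2 : ℤ) ∣ u
  · -- `u` is even
    obtain ⟨u₁, rfl⟩ := hu
    have hyo : ¬ (2 : ℤ) ∣ y := fun h =>
      not_cop (by norm_num) (Dvd.intro u₁ rfl) h hcop
    have hy8 := sq_mod8_odd hyo
    have hx8 := sq_mod8 x
    have hve : (2 : ℤ) ∣ v := by
      apply prime_two.dvd_of_dvd_pow (n := 2)
      rw [hv]
      exact ⟨2 * u₁ ^ 2 + 16 * y ^ 2, by ring⟩
    obtain ⟨v₁, rfl⟩ := hve
    have hv1 : v₁ ^ 2 = u₁ ^ 2 + 8 * y ^ 2 := by linarith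
    have hu1 : ¬ (2 : ℤ) ∣ u₁ := by
      rintro ⟨u₂, rfl⟩
      have : x ^ 2 = 8 * (2 * u₂ ^ 2) + 5 * y ^ 2 := by rw [hx]; ring
      omega
    have hv1o : ¬ (2 : ℤ) ∣ v₁ := by
      intro h
      have h3 : (2 : ℤ) ∣ u₁ ^ 2 := by
        have h4 : (2 : ℤ) ∣ v₁ ^ 2 := h.pow (by norm_num)
        omega
      exact hu1 (prime_two.dvd_of_dvd_pow h3)
    obtain ⟨A, hA⟩ : ∃ A, v₁ - u₁ = 2 * A := ⟨(v₁ - u₁) / 2, by omega⟩
    obtain ⟨B, hB⟩ : ∃ B, v₁ + u₁ = 2 * B := ⟨(v₁ + u₁) / 2, by omega⟩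
    have hAB : A * B = 2 ^ 1 * y ^ 2 := by
      have : (2 * A) * (2 * B) = 8 * y ^ 2 := by rw [← hA, ← hB]; linear_combination hv1
      linarith
    have hBA : B - A = u₁ := by omega
    have hAB' : A + B = v₁ := by omega
    have hcop1 : IsCoprime (B - A) y := by rw [hBA]; exact hcop.of_mul_left_right
    have hcAB : IsCoprime A B := cop2 1 hAB hcop1 (by rw [hBA]; exact hu1)
    have h2AB : (2 : ℤ) ∣ A ∨ (2 : ℤ) ∣ B := prime_two.dvd_or_dvd ⟨y ^ 2, by linarith⟩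
    obtain ⟨a, b, hab1, hab2, hab3, -⟩ := split2 (N := 2) (y := y) (by norm_num)
      (by linarith) hcAB (by omega) (by omega) h2AB
    rw [hBA] at hab1
    obtain ⟨w, hw⟩ : ∃ w, w = 2 * (a ^ 2 - 2 * b ^ 2) := ⟨_, rfl⟩
    have hwu : w ^ 2 = (2 * u₁) ^ 2 := by rw [hw, mul_pow, mul_pow, hab1]
    have hxw := abs_lt_of_sq_lt_sq' (by linarith : w ^ 2 < x ^ 2) hx0
    have hCD : (x - w) * (x + w) = 5 * (a * b) ^ 2 := by
      rw [← hab2]; linear_combination hx - hwu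
    have ha0 : a ≠ 0 := by
      rintro rfl
      rw [zero_mul] at hab2
      simp at hab2; exact hy hab2
    have hb0 : b ≠ 0 := by
      rintro rfl
      rw [mul_zero] at hab2
      simp at hab2; exact hy hab2
    have habo : ¬ (2 : ℤ) ∣ a * b := by
      intro h
      have h3 : (2 : ℤ) ∣ y ^ 2 := by rw [hab2]; exact h.pow (by norm_num)
      exact hyo (prime_two.dvd_of_dvd_pow h3)
    have hyab : y = a * b ∨ y = -(a * b) := sq_eq_sq_iff_eq_or_eq_neg.1 hab2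
    have hwu' : w = 2 * u₁ ∨ w = -(2 * u₁) := sq_eq_sq_iff_eq_or_eq_neg.1 hwu
    have hcopw : IsCoprime w (a * b) := by
      have h3 : IsCoprime w y := by
        rcases hwu' with h | h
        · rw [h]; exact hcop
        · rw [h]; exact hcop.neg_left
      rcases hyab with h | h
      · rw [← h]; exact h3
      · have : a * b = -y := by rw [h]; ring
        rw [this]; exact h3.neg_right
    have hcop2ab : IsCoprime (2 : ℤ) (a * b) := by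
      rw [Prime.coprime_iff_not_dvd prime_two]
      exact habo
    have hcopCD : IsCoprime (x - w) (x + w) := by
      apply cop5 hCD
      have : x + w - (x - w) = 2 * w := by ring
      rw [this]
      exact hcop2ab.mul_left hcopw
    obtain ⟨r, s, t, q, x₁, v₁', rfl, rfl, h3, h4, h5, h6, h7⟩ := step (k := 2) (l := 8)
      (by norm_num) (hcop2ab.of_mul_right_right.mul_left hab3) ha0 hb0 hcopCD (by linarith)
      (by linarith) hCD (by rw [hw]; ring)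
    have ht0 : t ≠ 0 := left_ne_zero_of_mul hb0
    have hr0 : r ≠ 0 := left_ne_zero_of_mul ha0
    have hs0 : s ≠ 0 := right_ne_zero_of_mul ha0
    have hq0 : q ≠ 0 := right_ne_zero_of_mul hb0
    by_cases hlt : t.natAbs < n
    · have h8 := ih t.natAbs hlt (2 * s) t x₁ v₁' rfl ht0 h4 h5 h6
      have h9 : s ^ 2 = t ^ 2 := by linarith
      obtain ⟨h10, h11⟩ := abs_one_of h9 h4.of_mul_left_right
      have h12 : r ^ 2 = q ^ 2 := by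
        rw [mul_pow 2 s, h10, h11] at h7
        linarith
      obtain ⟨h13, h14⟩ := abs_one_of h12 h3.of_mul_left_right
      have h15 : y ^ 2 = 1 := by
        rw [hab2]
        calc (r * s * (t * q)) ^ 2 = r ^ 2 * s ^ 2 * (t ^ 2 * q ^ 2) := by ring
          _ = 1 := by rw [h10, h11, h13, h14]; norm_num
      have h16 : y.natAbs = t.natAbs := by
        rw [Int.natAbs_eq_iff_sq_eq, h15, h11]
      omega
    · push Not at hlt
      have h8 : y ^ 2 ≤ t ^ 2 := by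
        rw [← hn] at hlt
        exact Int.natAbs_le_iff_sq_le.1 hlt
      have h9 : y ^ 2 = (r * s * q) ^ 2 * t ^ 2 := by rw [hab2]; ring
      have ht2 : 0 < t ^ 2 := by positivity
      have h10 : (r * s * q) ^ 2 ≤ 1 := by
        by_contra hcon
        push Not at hcon
        nlinarith
      have h11 : 0 < (r * s * q) ^ 2 := by positivity
      have h12 : (r * s * q) ^ 2 = 1 := by omega
      have hle : ∀ z : ℤ, z ≠ 0 → z ∣ r * s * q → z ^ 2 = 1 := by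
        intro z hz hd
        have h14 : z ^ 2 ∣ 1 := by rw [← h12]; exact pow_dvd_pow_of_dvd hd 2
        have h15 : z ^ 2 ≤ 1 := Int.le_of_dvd (by norm_num) h14
        have h16 : 0 < z ^ 2 := by positivity
        omega
      have hr1 := hle r hr0 ⟨s * q, by ring⟩
      have hs1 := hle s hs0 ⟨r * q, by ring⟩
      have hq1 := hle q hq0 ⟨r * s, by ring⟩
      have ht1 : t ^ 2 = 1 := by
        rw [mul_pow 2 r, mul_pow 2 s, hr1, hs1, hq1] at h7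
        linarith
      have hy1 : y ^ 2 = 1 := by rw [h9, h12, ht1]; norm_num
      have hu2 : u₁ ^ 2 = 1 := by
        rw [hab1]
        calc ((r * s) ^ 2 - 2 * (t * q) ^ 2) ^ 2
            = (r ^ 2 * s ^ 2 - 2 * (t ^ 2 * q ^ 2)) ^ 2 := by ring
          _ = 1 := by rw [hr1, hs1, hq1, ht1]; norm_num
      rw [mul_pow, hu2, hy1]; norm_num
  · -- `u` is odd: impossible
    exfalso
    have hu8 := sq_mod8_odd hu
    have hvo : ¬ (2 : ℤ) ∣ v := by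
      intro h
      have h4 : (2 : ℤ) ∣ v ^ 2 := h.pow (by norm_num)
      omega
    obtain ⟨A, hA⟩ : ∃ A, v - u = 2 * A := ⟨(v - u) / 2, by omega⟩
    obtain ⟨B, hB⟩ : ∃ B, v + u = 2 * B := ⟨(v + u) / 2, by omega⟩
    have hAB : A * B = 2 ^ 3 * y ^ 2 := by
      have : (2 * A) * (2 * B) = 32 * y ^ 2 := by rw [← hA, ← hB]; linear_combination hv
      linarith
    have hBA : B - A = u := by omega
    have hAB' : A + B = v := by omega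
    have hcAB : IsCoprime A B := cop2 3 hAB (by rw [hBA]; exact hcop) (by rw [hBA]; exact hu)
    have h8AB : (8 : ℤ) ∣ A ∨ (8 : ℤ) ∣ B := by
      have h8 : (8 : ℤ) ∣ A * B := ⟨y ^ 2, by rw [hAB]; norm_num⟩
      have h2 : (2 : ℤ) ∣ A ∨ (2 : ℤ) ∣ B := prime_two.dvd_or_dvd (dvd_trans (by norm_num) h8)
      rcases h2 with h2 | h2
      · left
        have hB2 : IsCoprime (2 : ℤ) B := by
          rw [Prime.coprime_iff_not_dvd prime_two]; omega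
        have hB8 : IsCoprime ((2 : ℤ) ^ 3) B := hB2.pow_left
        norm_num at hB8
        exact hB8.dvd_of_dvd_mul_right h8
      · right
        have hA2 : IsCoprime (2 : ℤ) A := by
          rw [Prime.coprime_iff_not_dvd prime_two]; omega
        have hA8 : IsCoprime ((2 : ℤ) ^ 3) A := hA2.pow_left
        norm_num at hA8
        exact hA8.dvd_of_dvd_mul_left h8
    obtain ⟨a, b, hab1, hab2, hab3, hab4⟩ := split2 (N := 8) (y := y) (by norm_num)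
      (by linarith) hcAB (by omega) (by omega) h8AB
    rw [hBA] at hab1
    have hao : ¬ (2 : ℤ) ∣ a := by
      intro h
      have h4 : (2 : ℤ) ∣ a ^ 2 := h.pow (by norm_num)
      omega
    obtain ⟨w, hw⟩ : ∃ w, w = a ^ 2 - 8 * b ^ 2 := ⟨_, rfl⟩
    have hwu : w ^ 2 = u ^ 2 := by rw [hw, hab1]
    have ha8 := sq_mod8_odd hao
    have hx8 := sq_mod8 x
    have hbe : (2 : ℤ) ∣ b := by
      by_contra hbo
      have hb8 := sq_mod8_odd hbo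
      obtain ⟨k, hk⟩ : ∃ k, a ^ 2 = 8 * k + 1 := ⟨a ^ 2 / 8, by omega⟩
      obtain ⟨l, hl⟩ : ∃ k, b ^ 2 = 8 * k + 1 := ⟨b ^ 2 / 8, by omega⟩
      have h5 : x ^ 2 = 8 * (8 * (k - 8 * l - 1) ^ 2 + 2 * (k - 8 * l - 1) +
          5 * (8 * k * l + k + l)) + 6 := by
        rw [hx, hab1, hab2, mul_pow, hk, hl]; ring
      omega
    obtain ⟨b₁, rfl⟩ := hbe
    have hxo : ¬ (2 : ℤ) ∣ x := by
      intro h
      have h4 : (2 : ℤ) ∣ x ^ 2 := h.pow (by norm_num)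
      have h5 : x ^ 2 = u ^ 2 + 2 * (10 * (a * b₁) ^ 2) := by rw [hx, hab2]; ring
      omega
    have hwo : ¬ (2 : ℤ) ∣ w := by
      intro h
      have h4 : (2 : ℤ) ∣ w ^ 2 := h.pow (by norm_num)
      omega
    obtain ⟨C, hC⟩ : ∃ C, x - w = 2 * C := ⟨(x - w) / 2, by omega⟩
    obtain ⟨D, hD⟩ : ∃ D, x + w = 2 * D := ⟨(x + w) / 2, by omega⟩
    have hxw := abs_lt_of_sq_lt_sq' (by linarith : w ^ 2 < x ^ 2) hx0
    have hCD : C * D = 5 * (a * b₁) ^ 2 := by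
      have : (2 * C) * (2 * D) = 20 * (a * b₁) ^ 2 := by
        rw [← hC, ← hD]; linear_combination hx - hwu + 5 * hab2
      linarith
    have hDC : D - C = w := by omega
    have ha0 : a ≠ 0 := by
      rintro rfl
      exact hao (dvd_zero _)
    have hb0 : b₁ ≠ 0 := by
      rintro rfl
      rw [mul_zero, mul_zero] at hab2
      simp at hab2; exact hy hab2
    have hyab : y = a * (2 * b₁) ∨ y = -(a * (2 * b₁)) := sq_eq_sq_iff_eq_or_eq_neg.1 hab2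
    have hwu' : w = u ∨ w = -u := sq_eq_sq_iff_eq_or_eq_neg.1 hwu
    have hcopw : IsCoprime w (a * (2 * b₁)) := by
      have h3 : IsCoprime w y := by
        rcases hwu' with h | h
        · rw [h]; exact hcop
        · rw [h]; exact hcop.neg_left
      rcases hyab with h | h
      · rw [← h]; exact h3
      · have : a * (2 * b₁) = -y := by rw [h]; ring
        rw [this]; exact h3.neg_right
    have hcopw' : IsCoprime (D - C) (a * b₁) := by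
      rw [hDC]
      exact hcopw.of_mul_right_left.mul_right hcopw.of_mul_right_right.of_mul_right_right
    obtain ⟨r, s, t, q, x₁, v₁', rfl, rfl, h3, h4, h5, h6, h7⟩ := step (k := 1) (l := 32)
      (by norm_num) (by rw [one_mul]; exact hab3.of_mul_right_right) ha0 hb0 (cop5 hCD hcopw')
      (by linarith) (by linarith) hCD (by rw [hDC, hw]; ring)
    have ht0 : t ≠ 0 := left_ne_zero_of_mul hb0
    have hr0 : r ≠ 0 := left_ne_zero_of_mul ha0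
    have hs0 : s ≠ 0 := right_ne_zero_of_mul ha0
    have hq0 : q ≠ 0 := right_ne_zero_of_mul hb0
    have hlt : t.natAbs < n := by
      rw [← hn]
      rw [Int.natAbs_lt_iff_sq_lt, hab2]
      have h8 : (r * s * (2 * (t * q))) ^ 2 = 4 * (r * s * q) ^ 2 * t ^ 2 := by ring
      rw [h8]
      have h9 : 0 < (r * s * q) ^ 2 := by positivity
      have h10 : 0 < t ^ 2 := by positivity
      have h11 : 1 < 4 * (r * s * q) ^ 2 := by linarith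
      calc t ^ 2 = 1 * t ^ 2 := (one_mul _).symm
        _ < 4 * (r * s * q) ^ 2 * t ^ 2 := mul_lt_mul_of_pos_right h11 h10
    have h8 := ih t.natAbs hlt (1 * s) t x₁ v₁' rfl ht0 h4 h5 h6
    have h9 : (2 : ℤ) ∣ s := by
      apply prime_two.dvd_of_dvd_pow (n := 2)
      rw [one_mul] at h8
      rw [h8]
      exact ⟨2 * t ^ 2, by ring⟩
    exact hao (h9.mul_left r)

/-- the rational form -/
lemma rational (u y x v : ℚ) (hy : y ≠ 0) (hx : x ^ 2 = u ^ 2 + 5 * y ^ 2)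
    (hv : v ^ 2 = u ^ 2 + 32 * y ^ 2) : u ^ 2 = 4 * y ^ 2 := by
  have sqint : ∀ (z : ℚ) (m : ℤ), z ^ 2 = m → ∃ k : ℤ, z = k := by
    intro z m h
    have h1 : IsIntegral ℤ z := by
      refine ⟨Polynomial.X ^ 2 - Polynomial.C m, by monicity!, ?_⟩
      simp only [Polynomial.eval₂_sub, Polynomial.eval₂_pow, Polynomial.eval₂_X,
        Polynomial.eval₂_C]
      rw [h]
      simp
    obtain ⟨k, hk⟩ := IsIntegrallyClosed.isIntegral_iff.1 h1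
    exact ⟨k, by rw [← hk]; simp⟩
  obtain ⟨q, hq⟩ : ∃ q, q = u / y := ⟨_, rfl⟩
  have hd : (q.den : ℚ) ≠ 0 := by exact_mod_cast q.den_nz
  have hqn : q * q.den = q.num := Rat.mul_den_eq_num q
  have hu : u = q * y := by rw [hq]; field_simp
  obtain ⟨X, hX⟩ := sqint (x / y * q.den) (q.num ^ 2 + 5 * (q.den : ℤ) ^ 2) (by
    push_cast
    rw [← hqn, mul_pow, div_pow, hx, hu]
    field_simp)
  obtain ⟨V, hV⟩ := sqint (v / y * q.den) (q.num ^ 2 + 32 * (q.den : ℤ) ^ 2) (by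
    push_cast
    rw [← hqn, mul_pow, div_pow, hv, hu]
    field_simp)
  have h1 : X ^ 2 = q.num ^ 2 + 5 * (q.den : ℤ) ^ 2 := by
    have : (X : ℚ) ^ 2 = q.num ^ 2 + 5 * (q.den : ℚ) ^ 2 := by
      rw [← hX, ← hqn, mul_pow, div_pow, hx, hu]
      field_simp
    exact_mod_cast this
  have h2 : V ^ 2 = q.num ^ 2 + 32 * (q.den : ℤ) ^ 2 := by
    have : (V : ℚ) ^ 2 = q.num ^ 2 + 32 * (q.den : ℚ) ^ 2 := by
      rw [← hV, ← hqn, mul_pow, div_pow, hv, hu]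
      field_simp
    exact_mod_cast this
  have h3 : IsCoprime q.num (q.den : ℤ) := by
    rw [Int.isCoprime_iff_gcd_eq_one]
    exact q.reduced
  have h4 := descent _ q.num q.den X V rfl (by exact_mod_cast q.den_nz) h3 h1 h2
  have h5 : (q.num : ℚ) ^ 2 = 4 * (q.den : ℚ) ^ 2 := by exact_mod_cast h4
  rw [← hqn, mul_pow] at h5
  have h6 : q ^ 2 = 4 := mul_right_cancel₀ (pow_ne_zero 2 hd) h5
  rw [hu, mul_pow, h6]


/-! ### Linear algebra -/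

/-- two rational numbers `z`, `z'` which are roots of a totally split member of the pencil -/
lemma pair (z z' : ℚ) (h : (z + z') ^ 2 = (z * z' + 4) * (z * z' + 1)) :
    (z * z' = 0 ∧ (z + z') ^ 2 = 4) ∨ (z' = -z ∧ (z ^ 2 = 1 ∨ z ^ 2 = 4)) := by
  by_cases hy : z + z' = 0
  · right
    have h1 : z' = -z := by linarith
    refine ⟨h1, ?_⟩
    subst h1
    have h2 : (z ^ 2 - 1) * (z ^ 2 - 4) = 0 := by
      have : (z + -z) ^ 2 = 0 := by ring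
      rw [this] at h
      linear_combination -h
    rcases mul_eq_zero.1 h2 with h3 | h3
    · left; linarith
    · right; linarith
  · left
    have h1 := rational (2 * (z * z' - 2)) (z + z') (3 * (z - z')) (6 * (z * z' + 2)) hy
      (by linear_combination 4 * h) (by linear_combination (-32) * h)
    have h2 : z * z' = 0 := by
      have : 9 * (z * z') = 0 := by linear_combination (-1 / 4) * h1 - h
      linarith
    refine ⟨h2, ?_⟩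
    rw [h2] at h
    linarith

lemma trio (z₁ z₂ z₃ : ℚ) (h1 : z₁ * z₂ + z₁ * z₃ + z₂ * z₃ = -4)
    (h2 : z₁ + z₂ + z₃ + z₁ * z₂ * z₃ = 0) :
    (z₁ = 0 ∧ z₂ = 2 ∧ z₃ = -2) ∨ (z₁ = 0 ∧ z₂ = -2 ∧ z₃ = 2) ∨
    (z₁ = 2 ∧ z₂ = 0 ∧ z₃ = -2) ∨ (z₁ = -2 ∧ z₂ = 0 ∧ z₃ = 2) ∨
    (z₁ = 2 ∧ z₂ = -2 ∧ z₃ = 0) ∨ (z₁ = -2 ∧ z₂ = 2 ∧ z₃ = 0) := by
  have h3 : (z₂ + z₃) ^ 2 = (z₂ * z₃ + 4) * (z₂ * z₃ + 1) := by
    linear_combination (-(z₂ * z₃ + 1)) * h1 + (z₂ + z₃) * h2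
  rcases pair z₂ z₃ h3 with ⟨h4, h5⟩ | ⟨h4, h5⟩
  · have h6 : (z₂ + z₃ - 2) * (z₂ + z₃ + 2) = 0 := by linear_combination h5
    rcases mul_eq_zero.1 h4 with rfl | rfl
    · rcases mul_eq_zero.1 h6 with h7 | h7
      · have h8 : z₃ = 2 := by linarith
        subst h8
        have h9 : z₁ = -2 := by linarith
        exact Or.inr (Or.inr (Or.inr (Or.inl ⟨h9, rfl, rfl⟩)))
      · have h8 : z₃ = -2 := by linarith
        subst h8
        have h9 : z₁ = 2 := by linarith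
        exact Or.inr (Or.inr (Or.inl ⟨h9, rfl, rfl⟩))
    · rcases mul_eq_zero.1 h6 with h7 | h7
      · have h8 : z₂ = 2 := by linarith
        subst h8
        have h9 : z₁ = -2 := by linarith
        exact Or.inr (Or.inr (Or.inr (Or.inr (Or.inr ⟨h9, rfl, rfl⟩))))
      · have h8 : z₂ = -2 := by linarith
        subst h8
        have h9 : z₁ = 2 := by linarith
        exact Or.inr (Or.inr (Or.inr (Or.inr (Or.inl ⟨h9, rfl, rfl⟩))))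
  · subst h4
    rcases h5 with h5 | h5
    · exfalso
      have : z₁ * z₂ + z₁ * -z₂ + z₂ * -z₂ = -z₂ ^ 2 := by ring
      rw [this, h5] at h1
      norm_num at h1
    · have h6 : z₁ = 0 := by
        have : z₁ + z₂ + -z₂ + z₁ * z₂ * -z₂ = z₁ - z₁ * z₂ ^ 2 := by ring
        rw [this, h5] at h2
        linarith
      have h7 : (z₂ - 2) * (z₂ + 2) = 0 := by linear_combination h5
      rcases mul_eq_zero.1 h7 with h8 | h8
      · have h9 : z₂ = 2 := by linarith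
        subst h9
        exact Or.inl ⟨h6, rfl, rfl⟩
      · have h9 : z₂ = -2 := by linarith
        subst h9
        exact Or.inr (Or.inl ⟨h6, rfl, by norm_num⟩)

/-- the form `4 x⁴ + 6 x² y² + y⁴` -/
noncomputable def F : MvPolynomial (Fin 2) ℂ := C 4 * X 0 ^ 4 + C 6 * X 0 ^ 2 * X 1 ^ 2 + X 1 ^ 4

/-- the rational numbers in `ℂ` -/
noncomputable def KQ : Subfield ℂ := (algebraMap ℚ ℂ).fieldRange

/-- `m (z x + y)⁴` -/
noncomputable def P (m z : ℂ) : MvPolynomial (Fin 2) ℂ := C m * (C z * X 0 + X 1) ^ 4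

lemma summand_of_ne {l a b : ℂ} (hb : b ≠ 0) : summand 4 l a b = P (l * b ^ 4) (a / b) := by
  unfold summand P
  have h : (C a : MvPolynomial (Fin 2) ℂ) = C (a / b) * C b := by
    rw [← C_mul, div_mul_cancel₀ _ hb]
  rw [h, C_mul, C_pow]
  ring

lemma summand_zero {l a : ℂ} : summand 4 l a 0 = C (l * a ^ 4) * X 0 ^ 4 := by
  unfold summand
  rw [C_0, C_mul, C_pow]
  ring

/-- first representation -/
noncomputable def M₁ : Multiset (MvPolynomial (Fin 2) ℂ) :=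
  {C 3 * X 0 ^ 4, P (1 / 2) 1, P (1 / 2) (-1)}

/-- second representation -/
noncomputable def M₂ : Multiset (MvPolynomial (Fin 2) ℂ) :=
  {P (3 / 4) 0, P (1 / 8) 2, P (1 / 8) (-2)}

/-- The five coefficient equations. -/
def Eqs (l₁ a₁ b₁ l₂ a₂ b₂ l₃ a₃ b₃ : ℚ) : Prop :=
  l₁ * a₁ ^ 4 + l₂ * a₂ ^ 4 + l₃ * a₃ ^ 4 = 4 ∧
  l₁ * a₁ ^ 3 * b₁ + l₂ * a₂ ^ 3 * b₂ + l₃ * a₃ ^ 3 * b₃ = 0 ∧
  l₁ * a₁ ^ 2 * b₁ ^ 2 + l₂ * a₂ ^ 2 * b₂ ^ 2 + l₃ * a₃ ^ 2 * b₃ ^ 2 = 1 ∧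
  l₁ * a₁ * b₁ ^ 3 + l₂ * a₂ * b₂ ^ 3 + l₃ * a₃ * b₃ ^ 3 = 0 ∧
  l₁ * b₁ ^ 4 + l₂ * b₂ ^ 4 + l₃ * b₃ ^ 4 = 1

lemma eqs_of_sum {l₁ a₁ b₁ l₂ a₂ b₂ l₃ a₃ b₃ : ℚ}
    (h : summand 4 l₁ a₁ b₁ + summand 4 l₂ a₂ b₂ + summand 4 l₃ a₃ b₃ = F) :
    Eqs l₁ a₁ b₁ l₂ a₂ b₂ l₃ a₃ b₃ := by
  have key : ∀ x y : ℚ, l₁ * (a₁ * x + b₁ * y) ^ 4 + l₂ * (a₂ * x + b₂ * y) ^ 4 +
      l₃ * (a₃ * x + b₃ * y) ^ 4 = 4 * x ^ 4 + 6 * x ^ 2 * y ^ 2 + y ^ 4 := by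
    intro x y
    have h1 := congrArg (eval ![(x : ℂ), (y : ℂ)]) h
    simp only [summand, F, map_add, map_mul, map_pow, eval_C, eval_X, Matrix.cons_val_zero,
      Matrix.cons_val_one] at h1
    exact_mod_cast h1
  have k1 := key 1 0
  have k2 := key 0 1
  have k3 := key 1 1
  have k4 := key 1 (-1)
  have k5 := key 2 1
  refine ⟨?_, ?_, ?_, ?_, ?_⟩ <;> linarith

lemma det3 {l₁ a₁ b₁ l₂ a₂ b₂ l₃ a₃ b₃ : ℚ} (h : Eqs l₁ a₁ b₁ l₂ a₂ b₂ l₃ a₃ b₃) :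
    l₁ * l₂ * l₃ * ((a₁ * b₂ - a₂ * b₁) * (a₁ * b₃ - a₃ * b₁) * (a₂ * b₃ - a₃ * b₂)) ^ 2 = 3 := by
  obtain ⟨e0, e1, e2, e3, e4⟩ := h
  have : l₁ * l₂ * l₃ * ((a₁ * b₂ - a₂ * b₁) * (a₁ * b₃ - a₃ * b₁) * (a₂ * b₃ - a₃ * b₂)) ^ 2 =
      (l₁ * a₁ ^ 4 + l₂ * a₂ ^ 4 + l₃ * a₃ ^ 4) *
        (l₁ * a₁ ^ 2 * b₁ ^ 2 + l₂ * a₂ ^ 2 * b₂ ^ 2 + l₃ * a₃ ^ 2 * b₃ ^ 2) *
        (l₁ * b₁ ^ 4 + l₂ * b₂ ^ 4 + l₃ * b₃ ^ 4) +
      2 * (l₁ * a₁ ^ 3 * b₁ + l₂ * a₂ ^ 3 * b₂ + l₃ * a₃ ^ 3 * b₃) *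
        (l₁ * a₁ ^ 2 * b₁ ^ 2 + l₂ * a₂ ^ 2 * b₂ ^ 2 + l₃ * a₃ ^ 2 * b₃ ^ 2) *
        (l₁ * a₁ * b₁ ^ 3 + l₂ * a₂ * b₂ ^ 3 + l₃ * a₃ * b₃ ^ 3) -
      (l₁ * a₁ ^ 2 * b₁ ^ 2 + l₂ * a₂ ^ 2 * b₂ ^ 2 + l₃ * a₃ ^ 2 * b₃ ^ 2) ^ 3 -
      (l₁ * a₁ ^ 4 + l₂ * a₂ ^ 4 + l₃ * a₃ ^ 4) *
        (l₁ * a₁ * b₁ ^ 3 + l₂ * a₂ * b₂ ^ 3 + l₃ * a₃ * b₃ ^ 3) ^ 2 -
      (l₁ * a₁ ^ 3 * b₁ + l₂ * a₂ ^ 3 * b₂ + l₃ * a₃ ^ 3 * b₃) ^ 2 *
        (l₁ * b₁ ^ 4 + l₂ * b₂ ^ 4 + l₃ * b₃ ^ 4) := by ring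
  rw [this, e0, e1, e2, e3, e4]; norm_num

lemma apolar1 {l₁ a₁ b₁ l₂ a₂ b₂ l₃ a₃ b₃ : ℚ} (h : Eqs l₁ a₁ b₁ l₂ a₂ b₂ l₃ a₃ b₃) :
    4 * (b₁ * b₂ * b₃) + (a₁ * a₂ * b₃ + a₁ * b₂ * a₃ + b₁ * a₂ * a₃) = 0 := by
  obtain ⟨e0, e1, e2, e3, e4⟩ := h
  linear_combination (-(b₁ * b₂ * b₃)) * e0 + (a₁ * b₂ * b₃ + b₁ * a₂ * b₃ + b₁ * b₂ * a₃) * e1
    - (a₁ * a₂ * b₃ + a₁ * b₂ * a₃ + b₁ * a₂ * a₃) * e2 + (a₁ * a₂ * a₃) * e3

lemma apolar2 {l₁ a₁ b₁ l₂ a₂ b₂ l₃ a₃ b₃ : ℚ} (h : Eqs l₁ a₁ b₁ l₂ a₂ b₂ l₃ a₃ b₃) :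
    (a₁ * b₂ * b₃ + b₁ * a₂ * b₃ + b₁ * b₂ * a₃) + a₁ * a₂ * a₃ = 0 := by
  obtain ⟨e0, e1, e2, e3, e4⟩ := h
  linear_combination ((b₁ * b₂ * b₃)) * e1 - (a₁ * b₂ * b₃ + b₁ * a₂ * b₃ + b₁ * b₂ * a₃) * e2
    + (a₁ * a₂ * b₃ + a₁ * b₂ * a₃ + b₁ * a₂ * a₃) * e3 - (a₁ * a₂ * a₃) * e4

lemma P_ne (m z : ℂ) (hm : m ≠ 0) : (C 3 * X 0 ^ 4 : MvPolynomial (Fin 2) ℂ) ≠ P m z := by
  intro h
  have h1 := congrArg (eval ![(0 : ℂ), 1]) h
  simp [P] at h1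
  exact hm h1.symm

/-- the case where one of the linear forms is `x` -/
lemma caseX {l₁ a₁ b₁ l₂ a₂ b₂ l₃ a₃ : ℚ} (h : Eqs l₁ a₁ b₁ l₂ a₂ b₂ l₃ a₃ 0) :
    ({summand 4 l₁ a₁ b₁, summand 4 l₂ a₂ b₂, summand 4 l₃ a₃ 0} :
      Multiset (MvPolynomial (Fin 2) ℂ)) = M₁ := by
  have hd := det3 h
  have ha3 : a₃ ≠ 0 := by rintro rfl; norm_num at hd
  have hb1 : b₁ ≠ 0 := by rintro rfl; norm_num at hd
  have hb2 : b₂ ≠ 0 := by rintro rfl; norm_num at hd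
  have h1 := apolar1 h
  have h2 := apolar2 h
  obtain ⟨e0, e1, e2, e3, e4⟩ := h
  have h3 : a₁ * b₂ + b₁ * a₂ = 0 := by
    have : a₃ * (a₁ * b₂ + b₁ * a₂) = 0 := by linear_combination h1
    exact (mul_eq_zero.1 this).resolve_left ha3
  have h4 : b₁ * b₂ + a₁ * a₂ = 0 := by
    have : a₃ * (b₁ * b₂ + a₁ * a₂) = 0 := by linear_combination h2
    exact (mul_eq_zero.1 this).resolve_left ha3
  obtain ⟨z₁, hz₁⟩ : ∃ z, z = a₁ / b₁ := ⟨_, rfl⟩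
  obtain ⟨z₂, hz₂⟩ : ∃ z, z = a₂ / b₂ := ⟨_, rfl⟩
  have hA₁ : a₁ = z₁ * b₁ := by rw [hz₁]; field_simp
  have hA₂ : a₂ = z₂ * b₂ := by rw [hz₂]; field_simp
  have h5 : z₂ = -z₁ := by
    have : b₁ * b₂ * (z₁ + z₂) = 0 := by rw [hA₁, hA₂] at h3; linear_combination h3
    rcases mul_eq_zero.1 this with h | h
    · exact absurd h (mul_ne_zero hb1 hb2)
    · linarith
  have h6 : (z₁ - 1) * (z₁ + 1) = 0 := by
    have : b₁ * b₂ * (1 + z₁ * z₂) = 0 := by rw [hA₁, hA₂] at h4; linear_combination h4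
    rcases mul_eq_zero.1 this with h | h
    · exact absurd h (mul_ne_zero hb1 hb2)
    · rw [h5] at h; linarith
  have s3 : summand 4 (l₃ : ℂ) a₃ 0 = C ((l₃ * a₃ ^ 4 : ℚ) : ℂ) * X 0 ^ 4 := by
    rw [summand_zero]; push_cast; rfl
  have s1 : summand 4 (l₁ : ℂ) a₁ b₁ = P ((l₁ * b₁ ^ 4 : ℚ) : ℂ) (z₁ : ℚ) := by
    rw [summand_of_ne (by exact_mod_cast hb1), hz₁]; push_cast; rfl
  have s2 : summand 4 (l₂ : ℂ) a₂ b₂ = P ((l₂ * b₂ ^ 4 : ℚ) : ℂ) (z₂ : ℚ) := by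
    rw [summand_of_ne (by exact_mod_cast hb2), hz₂]; push_cast; rfl
  rw [s1, s2, s3]
  obtain ⟨m₁, hm₁⟩ : ∃ m, m = l₁ * b₁ ^ 4 := ⟨_, rfl⟩
  obtain ⟨m₂, hm₂⟩ : ∃ m, m = l₂ * b₂ ^ 4 := ⟨_, rfl⟩
  obtain ⟨n₃, hn₃⟩ : ∃ m, m = l₃ * a₃ ^ 4 := ⟨_, rfl⟩
  rw [← hm₁, ← hm₂, ← hn₃]
  have f4 : m₁ + m₂ = 1 := by rw [hm₁, hm₂]; linear_combination e4
  have f3 : m₁ * z₁ + m₂ * z₂ = 0 := by
    rw [hA₁, hA₂] at e3; rw [hm₁, hm₂]; linear_combination e3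
  have f0 : m₁ * z₁ ^ 4 + m₂ * z₂ ^ 4 + n₃ = 4 := by
    rw [hA₁, hA₂] at e0; rw [hm₁, hm₂, hn₃]; linear_combination e0
  subst h5
  unfold M₁
  rcases mul_eq_zero.1 h6 with h7 | h7
  · have h8 : z₁ = 1 := by linarith
    subst h8
    have g1 : m₁ = 1 / 2 := by linarith
    have g2 : m₂ = 1 / 2 := by linarith
    have g3 : n₃ = 3 := by rw [g1, g2] at f0; linarith
    rw [g1, g2, g3]
    push_cast
    simp only [Multiset.insert_eq_cons, ← Multiset.singleton_add]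
    abel
  · have h8 : z₁ = -1 := by linarith
    subst h8
    have g1 : m₁ = 1 / 2 := by linarith
    have g2 : m₂ = 1 / 2 := by linarith
    have g3 : n₃ = 3 := by rw [g1, g2] at f0; linarith
    rw [g1, g2, g3]
    push_cast
    simp only [Multiset.insert_eq_cons, ← Multiset.singleton_add, neg_neg]
    abel

/-- the case where none of the linear forms is `x` -/
lemma caseZ {l₁ a₁ b₁ l₂ a₂ b₂ l₃ a₃ b₃ : ℚ} (h : Eqs l₁ a₁ b₁ l₂ a₂ b₂ l₃ a₃ b₃)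
    (hb1 : b₁ ≠ 0) (hb2 : b₂ ≠ 0) (hb3 : b₃ ≠ 0) :
    ({summand 4 l₁ a₁ b₁, summand 4 l₂ a₂ b₂, summand 4 l₃ a₃ b₃} :
      Multiset (MvPolynomial (Fin 2) ℂ)) = M₂ := by
  have h1 := apolar1 h
  have h2 := apolar2 h
  obtain ⟨e0, e1, e2, e3, e4⟩ := h
  obtain ⟨z₁, hz₁⟩ : ∃ z, z = a₁ / b₁ := ⟨_, rfl⟩
  obtain ⟨z₂, hz₂⟩ : ∃ z, z = a₂ / b₂ := ⟨_, rfl⟩
  obtain ⟨z₃, hz₃⟩ : ∃ z, z = a₃ / b₃ := ⟨_, rfl⟩
  have hA₁ : a₁ = z₁ * b₁ := by rw [hz₁]; field_simp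
  have hA₂ : a₂ = z₂ * b₂ := by rw [hz₂]; field_simp
  have hA₃ : a₃ = z₃ * b₃ := by rw [hz₃]; field_simp
  have hb : b₁ * b₂ * b₃ ≠ 0 := mul_ne_zero (mul_ne_zero hb1 hb2) hb3
  have h3 : z₁ * z₂ + z₁ * z₃ + z₂ * z₃ = -4 := by
    have : b₁ * b₂ * b₃ * (z₁ * z₂ + z₁ * z₃ + z₂ * z₃ + 4) = 0 := by
      rw [hA₁, hA₂, hA₃] at h1; linear_combination h1
    linarith [(mul_eq_zero.1 this).resolve_left hb]
  have h4 : z₁ + z₂ + z₃ + z₁ * z₂ * z₃ = 0 := by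
    have : b₁ * b₂ * b₃ * (z₁ + z₂ + z₃ + z₁ * z₂ * z₃) = 0 := by
      rw [hA₁, hA₂, hA₃] at h2; linear_combination h2
    exact (mul_eq_zero.1 this).resolve_left hb
  have s1 : summand 4 (l₁ : ℂ) a₁ b₁ = P ((l₁ * b₁ ^ 4 : ℚ) : ℂ) (z₁ : ℚ) := by
    rw [summand_of_ne (by exact_mod_cast hb1), hz₁]; push_cast; rfl
  have s2 : summand 4 (l₂ : ℂ) a₂ b₂ = P ((l₂ * b₂ ^ 4 : ℚ) : ℂ) (z₂ : ℚ) := by
    rw [summand_of_ne (by exact_mod_cast hb2), hz₂]; push_cast; rfl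
  have s3 : summand 4 (l₃ : ℂ) a₃ b₃ = P ((l₃ * b₃ ^ 4 : ℚ) : ℂ) (z₃ : ℚ) := by
    rw [summand_of_ne (by exact_mod_cast hb3), hz₃]; push_cast; rfl
  rw [s1, s2, s3]
  obtain ⟨m₁, hm₁⟩ : ∃ m, m = l₁ * b₁ ^ 4 := ⟨_, rfl⟩
  obtain ⟨m₂, hm₂⟩ : ∃ m, m = l₂ * b₂ ^ 4 := ⟨_, rfl⟩
  obtain ⟨m₃, hm₃⟩ : ∃ m, m = l₃ * b₃ ^ 4 := ⟨_, rfl⟩
  rw [← hm₁, ← hm₂, ← hm₃]
  have f4 : m₁ + m₂ + m₃ = 1 := by rw [hm₁, hm₂, hm₃]; linear_combination e4
  have f3 : m₁ * z₁ + m₂ * z₂ + m₃ * z₃ = 0 := by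
    rw [hA₁, hA₂, hA₃] at e3; rw [hm₁, hm₂, hm₃]; linear_combination e3
  have f2 : m₁ * z₁ ^ 2 + m₂ * z₂ ^ 2 + m₃ * z₃ ^ 2 = 1 := by
    rw [hA₁, hA₂, hA₃] at e2; rw [hm₁, hm₂, hm₃]; linear_combination e2
  clear s1 s2 s3 e0 e1 e2 e3 e4 h1 h2 hA₁ hA₂ hA₃ hz₁ hz₂ hz₃ hm₁ hm₂ hm₃
  unfold M₂
  rcases trio z₁ z₂ z₃ h3 h4 with h | h | h | h | h | h
  · obtain ⟨rfl, rfl, rfl⟩ := h
    have g1 : m₁ = 3 / 4 := by linarith
    have g2 : m₂ = 1 / 8 := by linarith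
    have g3 : m₃ = 1 / 8 := by linarith
    rw [g1, g2, g3]
    push_cast
    rfl
  · obtain ⟨rfl, rfl, rfl⟩ := h
    have g1 : m₁ = 3 / 4 := by linarith
    have g2 : m₂ = 1 / 8 := by linarith
    have g3 : m₃ = 1 / 8 := by linarith
    rw [g1, g2, g3]
    push_cast
    simp only [Multiset.insert_eq_cons, ← Multiset.singleton_add]
    abel
  · obtain ⟨rfl, rfl, rfl⟩ := h
    have g2 : m₂ = 3 / 4 := by linarith
    have g1 : m₁ = 1 / 8 := by linarith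
    have g3 : m₃ = 1 / 8 := by linarith
    rw [g1, g2, g3]
    push_cast
    simp only [Multiset.insert_eq_cons, ← Multiset.singleton_add]
    abel
  · obtain ⟨rfl, rfl, rfl⟩ := h
    have g2 : m₂ = 3 / 4 := by linarith
    have g1 : m₁ = 1 / 8 := by linarith
    have g3 : m₃ = 1 / 8 := by linarith
    rw [g1, g2, g3]
    push_cast
    simp only [Multiset.insert_eq_cons, ← Multiset.singleton_add]
    abel
  · obtain ⟨rfl, rfl, rfl⟩ := h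
    have g3 : m₃ = 3 / 4 := by linarith
    have g1 : m₁ = 1 / 8 := by linarith
    have g2 : m₂ = 1 / 8 := by linarith
    rw [g1, g2, g3]
    push_cast
    simp only [Multiset.insert_eq_cons, ← Multiset.singleton_add]
    abel
  · obtain ⟨rfl, rfl, rfl⟩ := h
    have g3 : m₃ = 3 / 4 := by linarith
    have g1 : m₁ = 1 / 8 := by linarith
    have g2 : m₂ = 1 / 8 := by linarith
    rw [g1, g2, g3]
    push_cast
    simp only [Multiset.insert_eq_cons, ← Multiset.singleton_add]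
    abel

lemma core {l₁ a₁ b₁ l₂ a₂ b₂ l₃ a₃ b₃ : ℚ} (h : Eqs l₁ a₁ b₁ l₂ a₂ b₂ l₃ a₃ b₃) :
    ({summand 4 l₁ a₁ b₁, summand 4 l₂ a₂ b₂, summand 4 l₃ a₃ b₃} :
      Multiset (MvPolynomial (Fin 2) ℂ)) = M₁ ∨
    ({summand 4 l₁ a₁ b₁, summand 4 l₂ a₂ b₂, summand 4 l₃ a₃ b₃} :
      Multiset (MvPolynomial (Fin 2) ℂ)) = M₂ := by
  by_cases hb3 : b₃ = 0
  · subst hb3
    left
    have := caseX h
    rw [← this]
    push_cast
    rfl
  by_cases hb2 : b₂ = 0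
  · subst hb2
    left
    have h' : Eqs l₁ a₁ b₁ l₃ a₃ b₃ l₂ a₂ 0 := by
      obtain ⟨e0, e1, e2, e3, e4⟩ := h
      exact ⟨by linarith, by linarith, by linarith, by linarith, by linarith⟩
    have := caseX h'
    rw [← this]
    push_cast
    simp only [Multiset.insert_eq_cons, ← Multiset.singleton_add]
    abel
  by_cases hb1 : b₁ = 0
  · subst hb1
    left
    have h' : Eqs l₃ a₃ b₃ l₂ a₂ b₂ l₁ a₁ 0 := by
      obtain ⟨e0, e1, e2, e3, e4⟩ := h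
      exact ⟨by linarith, by linarith, by linarith, by linarith, by linarith⟩
    have := caseX h'
    rw [← this]
    push_cast
    simp only [Multiset.insert_eq_cons, ← Multiset.singleton_add]
    abel
  · right
    exact caseZ h hb1 hb2 hb3

lemma mem_KQ {x : ℂ} (h : x ∈ KQ) : ∃ q : ℚ, x = q := by
  obtain ⟨q, hq⟩ := h
  exact ⟨q, by rw [← hq]; simp⟩

lemma cast_mem_KQ (q : ℚ) : (q : ℂ) ∈ KQ := ⟨q, by simp⟩

lemma three_of_rep {M : Multiset (MvPolynomial (Fin 2) ℂ)} (h : IsRep KQ 4 F M) :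
    3 ≤ M.card := by
  by_contra hlt
  push Not at hlt
  obtain ⟨h1, h2⟩ := h
  have hz : summand 4 ((0 : ℚ) : ℂ) ((0 : ℚ) : ℂ) ((0 : ℚ) : ℂ) = 0 := by simp [summand]
  have fin : ∀ l₁ a₁ b₁ l₂ a₂ b₂ : ℚ, summand 4 l₁ a₁ b₁ + summand 4 l₂ a₂ b₂ = F → False := by
    intro l₁ a₁ b₁ l₂ a₂ b₂ h
    have h' : summand 4 l₁ a₁ b₁ + summand 4 l₂ a₂ b₂ +
        summand 4 ((0 : ℚ) : ℂ) ((0 : ℚ) : ℂ) ((0 : ℚ) : ℂ) = F := by rw [hz, add_zero]; exact h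
    have := det3 (eqs_of_sum h')
    norm_num at this
  have hc : M.card = 0 ∨ M.card = 1 ∨ M.card = 2 := by omega
  rcases hc with hc | hc | hc
  · rw [Multiset.card_eq_zero] at hc
    subst hc
    refine fin 0 0 0 0 0 0 ?_
    rw [hz, ← h2]; simp
  · obtain ⟨g, rfl⟩ := Multiset.card_eq_one.1 hc
    obtain ⟨l, hl, a, ha, b, hb, hg⟩ := h1 g (by simp)
    obtain ⟨l, rfl⟩ := mem_KQ hl
    obtain ⟨a, rfl⟩ := mem_KQ ha
    obtain ⟨b, rfl⟩ := mem_KQ hb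
    refine fin l a b 0 0 0 ?_
    rw [hz, ← hg, ← h2]; simp
  · obtain ⟨g, g', rfl⟩ := Multiset.card_eq_two.1 hc
    obtain ⟨l, hl, a, ha, b, hb, hg⟩ := h1 g (by simp)
    obtain ⟨l, rfl⟩ := mem_KQ hl
    obtain ⟨a, rfl⟩ := mem_KQ ha
    obtain ⟨b, rfl⟩ := mem_KQ hb
    obtain ⟨l', hl', a', ha', b', hb', hg'⟩ := h1 g' (by simp)
    obtain ⟨l', rfl⟩ := mem_KQ hl'
    obtain ⟨a', rfl⟩ := mem_KQ ha'
    obtain ⟨b', rfl⟩ := mem_KQ hb'
    refine fin l a b l' a' b' ?_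
    rw [← hg, ← hg', ← h2]; simp

lemma eq_of_rep {M : Multiset (MvPolynomial (Fin 2) ℂ)} (h : IsRep KQ 4 F M)
    (hc : M.card = 3) : M = M₁ ∨ M = M₂ := by
  obtain ⟨h1, h2⟩ := h
  obtain ⟨g, g', g'', rfl⟩ := Multiset.card_eq_three.1 hc
  obtain ⟨l, hl, a, ha, b, hb, hg⟩ := h1 g (by simp)
  obtain ⟨l, rfl⟩ := mem_KQ hl
  obtain ⟨a, rfl⟩ := mem_KQ ha
  obtain ⟨b, rfl⟩ := mem_KQ hb
  obtain ⟨l', hl', a', ha', b', hb', hg'⟩ := h1 g' (by simp)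
  obtain ⟨l', rfl⟩ := mem_KQ hl'
  obtain ⟨a', rfl⟩ := mem_KQ ha'
  obtain ⟨b', rfl⟩ := mem_KQ hb'
  obtain ⟨l'', hl'', a'', ha'', b'', hb'', hg''⟩ := h1 g'' (by simp)
  obtain ⟨l'', rfl⟩ := mem_KQ hl''
  obtain ⟨a'', rfl⟩ := mem_KQ ha''
  obtain ⟨b'', rfl⟩ := mem_KQ hb''
  rw [hg, hg', hg'']
  apply core
  apply eqs_of_sum
  rw [← hg, ← hg', ← hg'', ← h2]
  simp [add_assoc]

lemma rep₁ : IsRep KQ 4 F M₁ := by
  refine ⟨?_, ?_⟩
  · intro g hg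
    simp only [M₁, Multiset.insert_eq_cons, Multiset.mem_cons, Multiset.mem_singleton] at hg
    rcases hg with rfl | rfl | rfl
    · refine ⟨3, by simp, 1, KQ.one_mem, 0, KQ.zero_mem, ?_⟩
      simp [summand]
    · refine ⟨1 / 2, by simp, 1, KQ.one_mem, 1, KQ.one_mem, ?_⟩
      simp [summand, P]
    · refine ⟨1 / 2, by simp, -1, KQ.neg_mem KQ.one_mem, 1,
        KQ.one_mem, ?_⟩
      simp [summand, P]
  · have h : (C (1 / 2 : ℂ) : MvPolynomial (Fin 2) ℂ) * 2 = 1 := by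
      rw [show (2 : MvPolynomial (Fin 2) ℂ) = C 2 from rfl, ← C_mul]; norm_num
    have h3 : (C 3 : MvPolynomial (Fin 2) ℂ) = 3 := rfl
    have h4 : (C 4 : MvPolynomial (Fin 2) ℂ) = 4 := rfl
    have h6 : (C 6 : MvPolynomial (Fin 2) ℂ) = 6 := rfl
    simp only [M₁, Multiset.insert_eq_cons, Multiset.sum_cons, Multiset.sum_singleton, P, F,
      map_neg, map_one, h3, h4, h6]
    linear_combination (X 0 ^ 4 + 6 * X 0 ^ 2 * X 1 ^ 2 + X 1 ^ 4) * h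

lemma rep₂ : IsRep KQ 4 F M₂ := by
  refine ⟨?_, ?_⟩
  · intro g hg
    simp only [M₂, Multiset.insert_eq_cons, Multiset.mem_cons, Multiset.mem_singleton] at hg
    rcases hg with rfl | rfl | rfl
    · refine ⟨3 / 4, by simpa using cast_mem_KQ (3 / 4), 0, KQ.zero_mem, 1, KQ.one_mem, ?_⟩
      simp [summand, P]
    · refine ⟨1 / 8, by simp, 2, by simp, 1,
        KQ.one_mem, ?_⟩
      simp [summand, P]
    · refine ⟨1 / 8, by simp, -2, by simp, 1,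
        KQ.one_mem, ?_⟩
      simp [summand, P]
  · have h : (C (1 / 8 : ℂ) : MvPolynomial (Fin 2) ℂ) * 8 = 1 := by
      rw [show (8 : MvPolynomial (Fin 2) ℂ) = C 8 from rfl, ← C_mul]; norm_num
    have h2 : (C 2 : MvPolynomial (Fin 2) ℂ) = 2 := rfl
    have h3 : (C (3 / 4 : ℂ) : MvPolynomial (Fin 2) ℂ) = 6 * C (1 / 8) := by
      rw [show (6 : MvPolynomial (Fin 2) ℂ) = C 6 from rfl, ← C_mul]; norm_num
    have h4 : (C 4 : MvPolynomial (Fin 2) ℂ) = 4 := rfl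
    have h6 : (C 6 : MvPolynomial (Fin 2) ℂ) = 6 := rfl
    simp only [M₂, Multiset.insert_eq_cons, Multiset.sum_cons, Multiset.sum_singleton, P, F,
      map_neg, map_zero, h2, h3, h4, h6]
    linear_combination (4 * X 0 ^ 4 + 6 * X 0 ^ 2 * X 1 ^ 2 + X 1 ^ 4) * h

lemma card₁ : M₁.card = 3 := rfl

lemma card₂ : M₂.card = 3 := rfl

lemma ne₁₂ : M₁ ≠ M₂ := by
  intro h
  have h1 : (C 3 * X 0 ^ 4 : MvPolynomial (Fin 2) ℂ) ∈ M₁ := by simp [M₁]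
  rw [h] at h1
  simp only [M₂, Multiset.insert_eq_cons, Multiset.mem_cons, Multiset.mem_singleton] at h1
  rcases h1 with h1 | h1 | h1
  · exact P_ne _ _ (by norm_num) h1
  · exact P_ne _ _ (by norm_num) h1
  · exact P_ne _ _ (by norm_num) h1

lemma minimal_set : {M | IsMinimalRep KQ 4 F M} = {M₁, M₂} := by
  ext M
  simp only [Set.mem_ofPred_eq, Set.mem_insert_iff, Set.mem_singleton_iff]
  constructor
  · rintro ⟨h1, h2⟩
    have h3 := three_of_rep h1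
    have h4 := h2 M₁ rep₁
    rw [card₁] at h4
    exact eq_of_rep h1 (by omega)
  · rintro (rfl | rfl)
    · exact ⟨rep₁, fun M' hM' => by rw [card₁]; exact three_of_rep hM'⟩
    · exact ⟨rep₂, fun M' hM' => by rw [card₂]; exact three_of_rep hM'⟩

lemma F_homogeneous : F.IsHomogeneous 4 := by
  have h0 := (isHomogeneous_X ℂ (0 : Fin 2))
  have h1 := (isHomogeneous_X ℂ (1 : Fin 2))
  exact (((h0.pow 4).C_mul 4).add (((h0.pow 2).C_mul 6).mul (h1.pow 2))).add (h1.pow 4)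

lemma F_coeff (m : Fin 2 →₀ ℕ) : F.coeff m ∈ KQ := by
  have h : F = MvPolynomial.map (algebraMap ℚ ℂ)
      (C 4 * X 0 ^ 4 + C 6 * X 0 ^ 2 * X 1 ^ 2 + X 1 ^ 4) := by
    simp [F]
  rw [h, MvPolynomial.coeff_map]
  exact ⟨_, rfl⟩

lemma KQ_eq : KQ = Subfield.closure (Set.range fun m => F.coeff m) := by
  apply le_antisymm
  · rintro x ⟨q, rfl⟩
    have : (algebraMap ℚ ℂ) q = (q : ℂ) := by simp
    rw [this]
    exact SubfieldClass.ratCast_mem _ q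
  · rw [Subfield.closure_le]
    rintro x ⟨m, rfl⟩
    exact F_coeff m

/-- There are a binary form `f` of some degree `d ≥ 3` and an admissible field `K` (in fact `K` is
the field `E_f` generated by the coefficients of `f`) such that `f` has exactly two different
`K`-minimal representations. -/
theorem result : ∃ (d : ℕ) (f : MvPolynomial (Fin 2) ℂ) (K : Subfield ℂ),
    3 ≤ d ∧ f.IsHomogeneous d ∧ K = Subfield.closure (Set.range fun m => f.coeff m) ∧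
    {M | IsMinimalRep K d f M}.Finite ∧ {M | IsMinimalRep K d f M}.ncard = 2 := by
  refine ⟨4, F, KQ, by norm_num, F_homogeneous, KQ_eq, ?_, ?_⟩
  · rw [minimal_set]
    exact Set.toFinite _
  · rw [minimal_set]
    exact Set.ncard_pair ne₁₂

end Pool.Agent.Results.MP_1ed635_nt.TwoMinimalReps
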